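import Mathlib
import Pool.Agent.Helper292.ForceCH

/-!
# Non-selective q-points among the Fubini limits of p-points

If `W` is a nonprincipal ultrafilter and the `Y n` are selective ultrafilters none of which is an
image of another one, then the Fubini limit of the `Y n` along `W` is a q-point which is not
selective. Under the continuum hypothesis there are such `W`, `Y n`, where `W` is a p-point. So
the continuum hypothesis refutes that every q-point Tukey below a finite Fubini iterate of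
p-points is selective, and this is not a theorem of ZFC.
-/

set_option autoImplicit false

open Cardinal Set

namespace Pool.Agent.Results.MP_21276c_lc.NotProvable

open Pool.Agent.Helper292.ForceCH (Om OmegaOnePreserved CHHolds countable_Iio)

/-- A p-point (as in the frozen statement). -/
def PPoint (W : Ultrafilter ℕ) : Prop :=
  (∀ n : ℕ, ({n} : Set ℕ) ∉ W) ∧
    ∀ A : ℕ → Set ℕ, (∀ n, A n ∈ W) → ∃ X ∈ W, ∀ n, (X \ A n).Finite

/-- A q-point. -/
def QPoint (V : Ultrafilter ℕ) : Prop :=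
  (∀ n : ℕ, ({n} : Set ℕ) ∉ V) ∧
    ∀ f : ℕ → ℕ, (∀ m : ℕ, {n : ℕ | f n = m}.Finite) → ∃ X ∈ V, Set.InjOn f X

/-- A selective ultrafilter. -/
def Selective (V : Ultrafilter ℕ) : Prop :=
  (∀ n : ℕ, ({n} : Set ℕ) ∉ V) ∧
    ∀ f : ℕ → ℕ, (∃ X ∈ V, ∃ c : ℕ, ∀ x ∈ X, f x = c) ∨ ∃ X ∈ V, Set.InjOn f X

/-- The Fubini limit of the ultrafilters `Y n` along `W`, on `ℕ` by the pairing function. -/
def lim (W : Ultrafilter ℕ) (Y : ℕ → Ultrafilter ℕ) : Ultrafilter ℕ :=
  W.bind fun n => (Y n).map (Nat.pair n)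

/-- Finite Fubini iterates of p-points, of depth at most `k + 1`. -/
inductive Iterate : ℕ → Ultrafilter ℕ → Prop
  | base (W : Ultrafilter ℕ) : PPoint W → Iterate 0 W
  | succ (k : ℕ) (W : Ultrafilter ℕ) : Iterate k W → Iterate (k + 1) W
  | lim (k : ℕ) (W : Ultrafilter ℕ) (Y : ℕ → Ultrafilter ℕ) :
      PPoint W → (∀ n, Iterate k (Y n)) → Iterate (k + 1) (lim W Y)

/-- `V` is Tukey reducible to `U`. -/
def TukeyLE (V U : Ultrafilter ℕ) : Prop :=
  ∃ g : Set ℕ → Set ℕ, (∀ A ∈ U, g A ∈ V) ∧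
    (∀ A ∈ U, ∀ B ∈ U, A ⊆ B → g A ⊆ g B) ∧ ∀ B ∈ V, ∃ A ∈ U, g A ⊆ B

/-- The continuum hypothesis: some family of subsets of `ℕ` indexed by `ω₁` contains every
subset of `ℕ`. -/
def CH : Prop := ∃ f : Om → Set ℕ, ∀ x : Set ℕ, ∃ a : Om, ∀ n, n ∈ x ↔ n ∈ f a

/-! ### Basic facts -/

theorem mem_lim {W : Ultrafilter ℕ} {Y : ℕ → Ultrafilter ℕ} {X : Set ℕ} :
    X ∈ lim W Y ↔ {n | {x | Nat.pair n x ∈ X} ∈ Y n} ∈ W := Iff.rfl

theorem infinite_of_mem {V : Ultrafilter ℕ} (hV : ∀ n : ℕ, ({n} : Set ℕ) ∉ V) {X : Set ℕ}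
    (hX : X ∈ V) : X.Infinite := by
  intro hfin
  have h : ∀ s : Set ℕ, s.Finite → s ∉ V := by
    intro s hs
    induction s, hs using Set.Finite.induction_on with
    | empty => exact V.empty_notMem
    | insert _ _ ih =>
      intro h
      rw [Set.insert_eq, Ultrafilter.union_mem_iff] at h
      exact h.elim (hV _) ih
  exact h X hfin hX

theorem compl_finite_mem {V : Ultrafilter ℕ} (hV : ∀ n : ℕ, ({n} : Set ℕ) ∉ V) {X : Set ℕ}
    (hX : X.Finite) : Xᶜ ∈ V := by
  rw [Ultrafilter.compl_mem_iff_notMem]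
  intro h
  exact infinite_of_mem hV h hX

theorem PPoint.of_selective {V : Ultrafilter ℕ} (h : Selective V) : PPoint V := by
  classical
  refine ⟨h.1, fun A hA => ?_⟩
  by_cases hI : (⋂ n, A n) ∈ V
  · refine ⟨_, hI, fun n => ?_⟩
    have : (⋂ n, A n) \ A n = ∅ := by
      ext x
      simp only [mem_sdiff, mem_iInter, mem_empty_iff_false, iff_false, not_and, not_not]
      exact fun hx => hx n
    rw [this]
    exact finite_empty
  have hI' : (⋂ n, A n)ᶜ ∈ V := Ultrafilter.compl_mem_iff_notMem.2 hI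
  let f : ℕ → ℕ := fun x => if hx : ∃ n, x ∉ A n then Nat.find hx else 0
  have hf : ∀ x, x ∈ (⋂ n, A n)ᶜ → x ∉ A (f x) := by
    intro x hx
    have hx' : ∃ n, x ∉ A n := by simpa using hx
    have : f x = Nat.find hx' := dif_pos hx'
    rw [this]
    exact Nat.find_spec hx'
  have hf2 : ∀ x n, x ∉ A n → f x ≤ n := by
    intro x n hx
    have : f x = Nat.find ⟨n, hx⟩ := dif_pos ⟨n, hx⟩
    rw [this]
    exact Nat.find_min' _ hx
  rcases h.2 f with ⟨X, hX, c, hc⟩ | ⟨X, hX, hinj⟩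
  · exfalso
    have h1 : X ∩ (⋂ n, A n)ᶜ ∩ A c ∈ V :=
      Filter.inter_mem (Filter.inter_mem hX hI') (hA c)
    obtain ⟨x, ⟨hx1, hx2⟩, hx3⟩ := V.nonempty_of_mem h1
    have := hf x hx2
    rw [hc x hx1] at this
    exact this hx3
  · refine ⟨X, hX, fun n => ?_⟩
    refine Set.Finite.of_finite_image (f := f) ((finite_Iic n).subset ?_)
      (hinj.mono sdiff_subset)
    rintro _ ⟨x, ⟨_, hx⟩, rfl⟩
    exact hf2 x n hx

theorem QPoint.of_selective {V : Ultrafilter ℕ} (h : Selective V) : QPoint V := by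
  refine ⟨h.1, fun f hf => ?_⟩
  rcases h.2 f with ⟨X, hX, c, hc⟩ | h'
  · exact absurd ((hf c).subset fun x hx => hc x hx) (infinite_of_mem h.1 hX)
  · exact h'

theorem tukeyLE_refl (V : Ultrafilter ℕ) : TukeyLE V V :=
  ⟨id, fun _ h => h, fun _ _ _ _ h => h, fun B h => ⟨B, h, subset_rfl⟩⟩

/-! ### Limits of selective ultrafilters -/

theorem lim_nonprincipal {W : Ultrafilter ℕ} {Y : ℕ → Ultrafilter ℕ}
    (hY : ∀ n, ∀ k : ℕ, ({k} : Set ℕ) ∉ Y n) : ∀ k : ℕ, ({k} : Set ℕ) ∉ lim W Y := by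
  intro k hk
  rw [mem_lim] at hk
  obtain ⟨n, hn⟩ := W.nonempty_of_mem hk
  have hn : {x | Nat.pair n x ∈ ({k} : Set ℕ)} ∈ Y n := hn
  refine infinite_of_mem (hY n) hn ((finite_singleton k.unpair.2).subset ?_)
  intro x hx
  have hx : Nat.pair n x = k := hx
  simp [← hx]

theorem not_selective_lim {W : Ultrafilter ℕ} {Y : ℕ → Ultrafilter ℕ}
    (hW : ∀ k : ℕ, ({k} : Set ℕ) ∉ W)
    (hY : ∀ n, ∀ k : ℕ, ({k} : Set ℕ) ∉ Y n) : ¬ Selective (lim W Y) := by
  intro h
  rcases h.2 (fun z => z.unpair.1) with ⟨X, hX, c, hc⟩ | ⟨X, hX, hinj⟩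
  · rw [mem_lim] at hX
    refine hW c (Filter.mem_of_superset hX ?_)
    intro n hn
    obtain ⟨x, hx⟩ := (Y n).nonempty_of_mem hn
    have := hc _ hx
    simpa using this
  · rw [mem_lim] at hX
    obtain ⟨n, hn⟩ := W.nonempty_of_mem hX
    have hinf := infinite_of_mem (hY n) hn
    obtain ⟨x, hx, y, hy, hxy⟩ := hinf.nontrivial
    refine hxy ?_
    have h1 : Nat.pair n x = Nat.pair n y := hinj hx hy (by simp)
    exact (Nat.pair_eq_pair.1 h1).2

theorem qpoint_lim {W : Ultrafilter ℕ} {Y : ℕ → Ultrafilter ℕ}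
    (hY : ∀ n, Selective (Y n))
    (hne : ∀ n m, n ≠ m → ∀ h : ℕ → ℕ, (Y n).map h ≠ Y m) : QPoint (lim W Y) := by
  classical
  refine ⟨lim_nonprincipal fun n => (hY n).1, fun f hf => ?_⟩
  let F : ℕ → ℕ → ℕ := fun n x => f (Nat.pair n x)
  have hF : ∀ n m, {x : ℕ | F n x = m}.Finite := by
    intro n m
    refine Set.Finite.of_finite_image (f := Nat.pair n) ((hf m).subset ?_) ?_
    · rintro _ ⟨x, hx, rfl⟩
      exact hx
    · intro x _ y _ hxy
      exact (Nat.pair_eq_pair.1 hxy).2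
  choose B hB hBinj using fun n => (QPoint.of_selective (hY n)).2 (F n) (hF n)
  -- the images are nonprincipal
  have hU : ∀ n, ∀ k : ℕ, ({k} : Set ℕ) ∉ (Y n).map (F n) := by
    intro n k hk
    rw [Ultrafilter.mem_map] at hk
    exact infinite_of_mem (hY n).1 hk (hF n k)
  -- the images are distinct
  have hUne : ∀ n m, n ≠ m → (Y n).map (F n) ≠ (Y m).map (F m) := by
    intro n m hnm heq
    refine hne n m hnm (Function.invFunOn (F m) (B m) ∘ F n) ?_
    rw [← Ultrafilter.map_map, heq, Ultrafilter.map_map]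
    refine Ultrafilter.coe_injective ?_
    rw [Ultrafilter.coe_map]
    have h1 : (Function.invFunOn (F m) (B m) ∘ F m) =ᶠ[(Y m : Filter ℕ)] id := by
      refine Filter.mem_of_superset (hB m) ?_
      intro x hx
      exact (hBinj m).leftInvOn_invFunOn hx
    rw [Filter.map_congr h1, Filter.map_id]
  have hD : ∀ n m, ∃ D : Set ℕ, n ≠ m → D ∈ (Y n).map (F n) ∧ D ∉ (Y m).map (F m) := by
    intro n m
    by_cases hnm : n = m
    · exact ⟨∅, fun h => absurd hnm h⟩
    · by_contra hcon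
      push Not at hcon
      refine hUne n m hnm ?_
      symm
      refine Ultrafilter.coe_le_coe.1 ?_
      intro s hs
      exact (hcon s).2 hs
  choose D hD using hD
  have hX : ∀ n, ∃ X ∈ Y n, X ⊆ B n ∧ ∀ m, n ≠ m → (X \ F n ⁻¹' D n m).Finite := by
    intro n
    obtain ⟨X, hX, hX'⟩ := (PPoint.of_selective (hY n)).2
      (fun m => if n = m then univ else F n ⁻¹' D n m) (by
        intro m
        by_cases hnm : n = m
        · simp only [hnm, if_true]
          exact Filter.univ_mem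
        · simp only [hnm, if_false]
          exact (hD n m hnm).1)
    refine ⟨X ∩ B n, Filter.inter_mem hX (hB n), inter_subset_right, fun m hnm => ?_⟩
    have := hX' m
    simp only [hnm, if_false] at this
    exact this.subset fun x hx => ⟨hx.1.1, hx.2⟩
  choose X hXY hXB hXD using hX
  -- the sets `E n` separate
  let E : ℕ → Set ℕ := fun n => F n '' X n
  have hE1 : ∀ n, E n ∈ (Y n).map (F n) := by
    intro n
    rw [Ultrafilter.mem_map]
    exact Filter.mem_of_superset (hXY n) (subset_preimage_image _ _)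
  have hE2 : ∀ n m, n ≠ m → (E n)ᶜ ∈ (Y m).map (F m) := by
    intro n m hnm
    have h1 : (D n m)ᶜ ∈ (Y m).map (F m) :=
      Ultrafilter.compl_mem_iff_notMem.2 (hD n m hnm).2
    have h2 : (F n '' (X n \ F n ⁻¹' D n m))ᶜ ∈ (Y m).map (F m) :=
      compl_finite_mem (hU m) ((hXD n m hnm).image _)
    refine Filter.mem_of_superset (Filter.inter_mem h1 h2) ?_
    rintro y ⟨hy1, hy2⟩ ⟨x, hx, rfl⟩
    exact hy2 ⟨x, ⟨hx, hy1⟩, rfl⟩
  let C : ℕ → Set ℕ := fun n => E n ∩ ⋂ k ∈ Finset.range n, (E k)ᶜ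
  have hC : ∀ n, C n ∈ (Y n).map (F n) := by
    intro n
    refine Filter.inter_mem (hE1 n) ?_
    refine (Filter.biInter_finset_mem _).2 fun k hk => ?_
    exact hE2 k n (Finset.mem_range.1 hk).ne
  have hCdisj : ∀ n m y, y ∈ C n → y ∈ C m → n = m := by
    have key : ∀ n m y, n < m → y ∈ C n → y ∉ C m := by
      intro n m y hlt hy hy'
      have := hy'.2
      simp only [mem_iInter] at this
      exact this n (Finset.mem_range.2 hlt) hy.1
    intro n m y hn hm
    rcases lt_trichotomy n m with h | h | h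
    · exact absurd hm (key n m y h hn)
    · exact h
    · exact absurd hn (key m n y h hm)
  refine ⟨{z | z.unpair.2 ∈ X z.unpair.1 ∧ f z ∈ C z.unpair.1}, ?_, ?_⟩
  · rw [mem_lim]
    refine Filter.mem_of_superset Filter.univ_mem ?_
    intro n _
    have h1 : X n ∩ F n ⁻¹' C n ∈ Y n := Filter.inter_mem (hXY n) (hC n)
    refine Filter.mem_of_superset h1 ?_
    rintro x ⟨hx1, hx2⟩
    change (Nat.pair n x).unpair.2 ∈ X (Nat.pair n x).unpair.1 ∧
      f (Nat.pair n x) ∈ C (Nat.pair n x).unpair.1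
    simp only [Nat.unpair_pair]
    exact ⟨hx1, hx2⟩
  · rintro z ⟨hz1, hz2⟩ w ⟨hw1, hw2⟩ hzw
    have h1 : z.unpair.1 = w.unpair.1 := hCdisj _ _ _ hz2 (by rw [hzw]; exact hw2)
    have h2 : F z.unpair.1 z.unpair.2 = F z.unpair.1 w.unpair.2 := by
      change f (Nat.pair z.unpair.1 z.unpair.2) = f (Nat.pair z.unpair.1 w.unpair.2)
      rw [Nat.pair_unpair, h1, Nat.pair_unpair]
      exact hzw
    have h3 : z.unpair.2 = w.unpair.2 := by
      refine hBinj z.unpair.1 (hXB _ hz1) ?_ h2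
      rw [h1]
      exact hXB _ hw1
    rw [← Nat.pair_unpair z, ← Nat.pair_unpair w, h1, h3]

/-! ### Selective ultrafilters under the continuum hypothesis -/

/-- a descending transfinite sequence of countable stages meeting given dense sets -/
theorem exists_descending {ι P : Type} [LinearOrder ι] [WellFoundedLT ι]
    (hι : ∀ a : ι, Countable {b : ι // b < a}) (R : P → P → Prop)
    (hrefl : ∀ a, R a a) (htrans : ∀ a b c, R a b → R b c → R a c)
    (hlow : ∀ s : Set P, s.Countable → (∀ a ∈ s, ∀ b ∈ s, R a b ∨ R b a) → ∃ q, ∀ a ∈ s, R q a)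
    (D : ι → Set P) (hD : ∀ i p, ∃ q ∈ D i, R q p) :
    ∃ f : ι → P, (∀ i, f i ∈ D i) ∧ ∀ i j, i < j → R (f j) (f i) := by
  classical
  obtain ⟨p0, -⟩ := hlow ∅ countable_empty (fun a ha => absurd ha (notMem_empty a))
  let step : (a : ι) → ((b : ι) → b < a → P) → P := fun a g =>
    if h : ∃ q ∈ D a, ∀ (b : ι) (hb : b < a), R q (g b hb) then h.choose else p0
  let f : ι → P := (wellFounded_lt (α := ι)).fix step
  have hf : ∀ a, f a = step a fun b _ => f b := fun a => WellFounded.fix_eq _ _ _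
  have key : ∀ a, f a ∈ D a ∧ ∀ b < a, R (f a) (f b) := by
    intro a
    induction a using WellFoundedLT.induction with
    | _ a ih =>
      have hex : ∃ q ∈ D a, ∀ (b : ι) (_ : b < a), R q (f b) := by
        obtain ⟨q0, hq0⟩ := hlow (Set.range fun b : {b : ι // b < a} => f b.1)
          (by have := hι a; exact countable_range _) (by
            rintro _ ⟨b, rfl⟩ _ ⟨c, rfl⟩
            rcases lt_trichotomy b.1 c.1 with h | h | h
            · exact Or.inr ((ih c.1 c.2).2 b.1 h)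
            · have h' : b = c := Subtype.ext h
              subst h'
              exact Or.inl (hrefl _)
            · exact Or.inl ((ih b.1 b.2).2 c.1 h))
        obtain ⟨q, hq, hq'⟩ := hD a q0
        exact ⟨q, hq, fun b hb => htrans _ _ _ hq' (hq0 _ ⟨⟨b, hb⟩, rfl⟩)⟩
      have h1 : f a = hex.choose := by
        rw [hf a]
        exact dif_pos hex
      rw [h1]
      exact ⟨hex.choose_spec.1, hex.choose_spec.2⟩
  exact ⟨f, fun i => (key i).1, fun i j hij => (key j).2 i hij⟩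

/-- sequences of infinite sets of natural numbers -/
abbrev Seq : Type := {A : ℕ → Set ℕ // ∀ n, (A n).Infinite}

/-- `A` is below `B` if `A n` is almost contained in `B n` for all `n` -/
def Below (A B : Seq) : Prop := ∀ n, (A.1 n \ B.1 n).Finite

theorem below_refl (A : Seq) : Below A A := fun n => by
  rw [sdiff_self]
  exact finite_empty

theorem below_trans (A B C : Seq) (h : Below A B) (h' : Below B C) : Below A C := fun n => by
  refine ((h n).union (h' n)).subset ?_
  rintro x ⟨hx, hx'⟩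
  by_cases hB : x ∈ B.1 n
  · exact Or.inr ⟨hB, hx'⟩
  · exact Or.inl ⟨hx, hB⟩

theorem pseudo_intersection (w : ℕ → Set ℕ) (h : ∀ k, (⋂ j ∈ Finset.range k, w j).Infinite) :
    ∃ X : Set ℕ, X.Infinite ∧ ∀ j, (X \ w j).Finite := by
  choose g hg hg' using fun (k : ℕ) (m : ℕ) => (h (k + 1)).exists_gt m
  let x : ℕ → ℕ := fun k => Nat.rec (g 0 0) (fun k y => g (k + 1) y) k
  have hx1 : ∀ k, x (k + 1) = g (k + 1) (x k) := fun k => rfl
  have hmono : StrictMono x := strictMono_nat_of_lt_succ fun k => by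
    rw [hx1]
    exact hg' _ _
  have hmem : ∀ k, x k ∈ ⋂ j ∈ Finset.range (k + 1), w j := by
    intro k
    cases k with
    | zero => exact hg 0 0
    | succ k => exact hg (k + 1) (x k)
  refine ⟨range x, infinite_range_of_injective hmono.injective, fun j => ?_⟩
  refine ((finite_Iio j).image x).subset ?_
  rintro _ ⟨⟨k, rfl⟩, hk⟩
  refine ⟨k, ?_, rfl⟩
  by_contra hjk
  have h1 := hmem k
  simp only [mem_iInter] at h1
  exact hk (h1 j (Finset.mem_range.2 (Nat.lt_succ_of_le (not_lt.1 hjk))))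

theorem below_low (s : Set Seq) (hs : s.Countable)
    (hchain : ∀ a ∈ s, ∀ b ∈ s, Below a b ∨ Below b a) : ∃ q, ∀ a ∈ s, Below q a := by
  rcases s.eq_empty_or_nonempty with rfl | hne
  · exact ⟨⟨fun _ => univ, fun _ => infinite_univ⟩, fun a ha => absurd ha (notMem_empty a)⟩
  obtain ⟨u, rfl⟩ := hs.exists_eq_range hne
  have hmin : ∀ k, ∃ i, ∀ j ∈ Finset.range k, Below (u i) (u j) := by
    intro k
    induction k with
    | zero => exact ⟨0, fun j hj => absurd hj (by simp)⟩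
    | succ k ih =>
      obtain ⟨i, hi⟩ := ih
      rcases hchain (u i) ⟨i, rfl⟩ (u k) ⟨k, rfl⟩ with h | h
      · refine ⟨i, fun j hj => ?_⟩
        rcases Finset.mem_range_succ_iff.1 hj |>.eq_or_lt with rfl | hj'
        · exact h
        · exact hi j (Finset.mem_range.2 hj')
      · refine ⟨k, fun j hj => ?_⟩
        rcases Finset.mem_range_succ_iff.1 hj |>.eq_or_lt with rfl | hj'
        · exact below_refl _
        · exact below_trans _ _ _ h (hi j (Finset.mem_range.2 hj'))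
  have hq : ∀ n, ∃ X : Set ℕ, X.Infinite ∧ ∀ j, (X \ (u j).1 n).Finite := by
    intro n
    refine pseudo_intersection (fun j => (u j).1 n) fun k => ?_
    obtain ⟨i, hi⟩ := hmin k
    have hfin : (⋃ j ∈ Finset.range k, (u i).1 n \ (u j).1 n).Finite :=
      Set.Finite.biUnion (Finset.finite_toSet _) fun j hj => hi j hj n
    refine (((u i).2 n).sdiff hfin).mono ?_
    rintro x ⟨hx, hx'⟩
    simp only [mem_iUnion, not_exists] at hx'
    simp only [mem_iInter]
    intro j hj
    by_contra hcon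
    exact hx' j hj ⟨hx, hcon⟩
  choose X hX hX' using hq
  refine ⟨⟨X, hX⟩, ?_⟩
  rintro _ ⟨j, rfl⟩ n
  exact hX' n j

theorem exists_split {A : Set ℕ} (hA : A.Infinite) :
    ∃ Z₁ Z₂ : Set ℕ, Z₁ ⊆ A ∧ Z₂ ⊆ A ∧ Z₁.Infinite ∧ Z₂.Infinite ∧ ∀ x, x ∈ Z₁ → x ∉ Z₂ := by
  let e := hA.natEmbedding
  have hinj : Function.Injective fun k => (e k : ℕ) := fun a b h => e.injective (Subtype.ext h)
  refine ⟨range fun k => (e (2 * k) : ℕ), range fun k => (e (2 * k + 1) : ℕ), ?_, ?_, ?_, ?_, ?_⟩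
  · rintro _ ⟨k, rfl⟩
    exact (e _).2
  · rintro _ ⟨k, rfl⟩
    exact (e _).2
  · refine infinite_range_of_injective fun a b h => ?_
    have := hinj h
    omega
  · refine infinite_range_of_injective fun a b h => ?_
    have := hinj h
    omega
  · rintro _ ⟨k, rfl⟩ ⟨l, hl⟩
    have := hinj hl
    omega

/-- the tasks of the construction -/
abbrev Task : Type := (ℕ × Set ℕ) ⊕ (ℕ × (ℕ → ℕ)) ⊕ ((ℕ × ℕ) × (ℕ → ℕ))

/-- the dense set of a task -/
def Dense : Task → Set Seq
  | Sum.inl (n, B) => {A | A.1 n ⊆ B ∨ A.1 n ⊆ Bᶜ}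
  | Sum.inr (Sum.inl (n, f)) => {A | (∃ c, ∀ x ∈ A.1 n, f x = c) ∨ InjOn f (A.1 n)}
  | Sum.inr (Sum.inr ((n, m), h)) => {A | n ≠ m → ∀ x ∈ A.1 n, h x ∉ A.1 m}

/-- replace one set -/
def upd (A : Seq) (n : ℕ) (X : Set ℕ) (hX : X.Infinite) : Seq :=
  ⟨Function.update A.1 n X, fun k => by
    by_cases hk : k = n
    · subst hk
      simpa using hX
    · rw [Function.update_of_ne hk]
      exact A.2 k⟩

theorem upd_same (A : Seq) (n : ℕ) (X : Set ℕ) (hX : X.Infinite) : (upd A n X hX).1 n = X := by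
  simp [upd]

theorem upd_ne (A : Seq) {n k : ℕ} (X : Set ℕ) (hX : X.Infinite) (hk : k ≠ n) :
    (upd A n X hX).1 k = A.1 k := by
  simp [upd, hk]

theorem upd_below (A : Seq) (n : ℕ) (X : Set ℕ) (hX : X.Infinite) (h : X ⊆ A.1 n) :
    Below (upd A n X hX) A := by
  intro k
  by_cases hk : k = n
  · subst hk
    rw [upd_same]
    have : X \ A.1 k = ∅ := sdiff_eq_empty.2 h
    rw [this]
    exact finite_empty
  · rw [upd_ne A X hX hk]
    exact below_refl A k

theorem dense_dense (t : Task) (A : Seq) : ∃ q ∈ Dense t, Below q A := by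
  match t with
  | Sum.inl (n, B) =>
    have h : (A.1 n ∩ B ∪ A.1 n ∩ Bᶜ).Infinite := by
      rw [inter_union_compl]
      exact A.2 n
    rcases infinite_union.1 h with h | h
    · exact ⟨upd A n _ h, Or.inl (by rw [upd_same]; exact inter_subset_right),
        upd_below A n _ h inter_subset_left⟩
    · exact ⟨upd A n _ h, Or.inr (by rw [upd_same]; exact inter_subset_right),
        upd_below A n _ h inter_subset_left⟩
  | Sum.inr (Sum.inl (n, f)) =>
    by_cases hc : ∃ c, (A.1 n ∩ f ⁻¹' {c}).Infinite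
    · obtain ⟨c, hc⟩ := hc
      refine ⟨upd A n _ hc, Or.inl ⟨c, ?_⟩, upd_below A n _ hc inter_subset_left⟩
      rw [upd_same]
      exact fun x hx => hx.2
    · push Not at hc
      obtain ⟨s, hs, hbij⟩ := Set.exists_subset_bijOn (A.1 n) f
      have hinf : s.Infinite := by
        intro hfin
        have h1 : (f '' A.1 n).Finite := by
          rw [← hbij.image_eq]
          exact hfin.image f
        refine A.2 n ?_
        refine (h1.biUnion fun c _ => hc c).subset ?_
        intro x hx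
        simp only [mem_iUnion]
        exact ⟨f x, ⟨x, hx, rfl⟩, hx, rfl⟩
      refine ⟨upd A n s hinf, Or.inr ?_, upd_below A n s hinf hs⟩
      rw [upd_same]
      exact hbij.injOn
  | Sum.inr (Sum.inr ((n, m), h)) =>
    by_cases hnm : n = m
    · exact ⟨A, fun h' => absurd hnm h', below_refl A⟩
    obtain ⟨Z₁, Z₂, hZ₁, hZ₂, hi₁, hi₂, hd⟩ := exists_split (A.2 m)
    have key : ∀ Z : Set ℕ, Z ⊆ A.1 m → Z.Infinite → (A.1 n ∩ h ⁻¹' Zᶜ).Infinite →
        ∃ q ∈ Dense (Sum.inr (Sum.inr ((n, m), h))), Below q A := by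
      intro Z hZ hi hX
      refine ⟨upd (upd A n _ hX) m Z hi, ?_, ?_⟩
      · intro _ x hx
        rw [upd_same]
        rw [upd_ne _ Z hi hnm, upd_same] at hx
        exact hx.2
      · refine below_trans _ _ _ (upd_below _ m Z hi ?_) (upd_below A n _ hX inter_subset_left)
        rw [upd_ne A _ hX (Ne.symm hnm)]
        exact hZ
    have h2 : (A.1 n ∩ h ⁻¹' Z₁ᶜ ∪ A.1 n ∩ h ⁻¹' Z₂ᶜ).Infinite := by
      refine (A.2 n).mono fun x hx => ?_
      by_cases hx1 : h x ∈ Z₁
      · exact Or.inr ⟨hx, hd _ hx1⟩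
      · exact Or.inl ⟨hx, hx1⟩
    rcases infinite_union.1 h2 with h3 | h3
    · exact key Z₁ hZ₁ hi₁ h3
    · exact key Z₂ hZ₂ hi₂ h3

theorem continuum_of_CH (h : CH) : (𝔠 : Cardinal.{0}) = ℵ₁ := by
  obtain ⟨f, hf⟩ := h
  have hsurj : Function.Surjective f := by
    intro x
    obtain ⟨a, ha⟩ := hf x
    exact ⟨a, (Set.ext ha).symm⟩
  have h1 : (𝔠 : Cardinal.{0}) ≤ ℵ₁ := by
    have h2 := mk_le_of_surjective hsurj
    rwa [mk_set, mk_nat, two_power_aleph0, mk_ord_toType] at h2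
  exact le_antisymm h1 aleph_one_le_continuum

theorem mk_task : #Task ≤ 𝔠 := by
  have h1 : #(Set ℕ) = 𝔠 := by rw [mk_set, mk_nat, two_power_aleph0]
  have h2 : #(ℕ → ℕ) = 𝔠 := by simp
  simp only [mk_sum, mk_prod, lift_id, mk_nat, h1, h2, aleph0_mul_continuum,
    aleph0_mul_aleph0, continuum_add_self]
  exact le_rfl

theorem exists_surj (h : CH) : ∃ e : Om → Task, Function.Surjective e := by
  have h1 : #Task ≤ #Om := by
    rw [mk_ord_toType, ← continuum_of_CH h]
    exact mk_task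
  obtain ⟨i⟩ := h1
  exact ⟨Function.invFun i, Function.invFun_surjective i.injective⟩

/-- Under the continuum hypothesis there are infinitely many selective ultrafilters none of
which is an image of another one. -/
theorem exists_selective (h : CH) : ∃ Y : ℕ → Ultrafilter ℕ, (∀ n, Selective (Y n)) ∧
    ∀ n m, n ≠ m → ∀ h : ℕ → ℕ, (Y n).map h ≠ Y m := by
  classical
  obtain ⟨e, he⟩ := exists_surj h
  obtain ⟨f, hf, hf'⟩ := exists_descending countable_Iio Below below_refl below_trans below_low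
    (fun a => Dense (e a)) (fun a p => dense_dense (e a) p)
  have hle : ∀ a b, a ≤ b → Below (f b) (f a) := by
    intro a b hab
    rcases hab.eq_or_lt with rfl | h
    · exact below_refl _
    · exact hf' _ _ h
  let F : ℕ → Filter ℕ := fun n =>
    { sets := {B | ∃ a, ((f a).1 n \ B).Finite}
      univ_sets := ⟨Classical.arbitrary Om, by simp⟩
      sets_of_superset := by
        rintro x y ⟨a, ha⟩ hxy
        exact ⟨a, ha.subset fun z hz => ⟨hz.1, fun hz' => hz.2 (hxy hz')⟩⟩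
      inter_sets := by
        rintro x y ⟨a, ha⟩ ⟨b, hb⟩
        refine ⟨max a b, ?_⟩
        refine (((hle a _ (le_max_left a b) n).union ha).union
          ((hle b _ (le_max_right a b) n).union hb)).subset ?_
        rintro z ⟨hz, hz'⟩
        by_cases hza : z ∈ (f a).1 n
        · by_cases hzb : z ∈ (f b).1 n
          · by_cases hzx : z ∈ x
            · exact Or.inr (Or.inr ⟨hzb, fun hzy => hz' ⟨hzx, hzy⟩⟩)
            · exact Or.inl (Or.inr ⟨hza, hzx⟩)
          · exact Or.inr (Or.inl ⟨hz, hzb⟩)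
        · exact Or.inl (Or.inl ⟨hz, hza⟩) }
  have hF : ∀ n B, B ∈ F n ↔ ∃ a, ((f a).1 n \ B).Finite := fun n B => Iff.rfl
  have hempty : ∀ n, ∅ ∉ F n := by
    intro n hn
    obtain ⟨a, ha⟩ := (hF n _).1 hn
    rw [sdiff_empty] at ha
    exact (f a).2 n ha
  have hult : ∀ n s, sᶜ ∉ F n ↔ s ∈ F n := by
    intro n s
    constructor
    · intro hs
      obtain ⟨a, ha⟩ := he (Sum.inl (n, s))
      have h1 := hf a
      rw [ha] at h1
      rcases h1 with h1 | h1
      · refine (hF n s).2 ⟨a, ?_⟩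
        rw [sdiff_eq_empty.2 h1]
        exact finite_empty
      · refine absurd ((hF n sᶜ).2 ⟨a, ?_⟩) hs
        rw [sdiff_eq_empty.2 h1]
        exact finite_empty
    · intro hs hs'
      have := (F n).inter_sets hs hs'
      rw [inter_compl_self] at this
      exact hempty n this
  let Y : ℕ → Ultrafilter ℕ := fun n => Ultrafilter.ofComplNotMemIff (F n) (hult n)
  have hY : ∀ n B, B ∈ Y n ↔ ∃ a, ((f a).1 n \ B).Finite := fun n B => Iff.rfl
  have hmem : ∀ n a, (f a).1 n ∈ Y n := fun n a => (hY n _).2 ⟨a, by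
    rw [sdiff_self]
    exact finite_empty⟩
  refine ⟨Y, fun n => ⟨?_, ?_⟩, ?_⟩
  · intro k hk
    obtain ⟨a, ha⟩ := (hY n _).1 hk
    refine (f a).2 n ((ha.union (finite_singleton k)).subset ?_)
    intro z hz
    by_cases hzk : z ∈ ({k} : Set ℕ)
    · exact Or.inr hzk
    · exact Or.inl ⟨hz, hzk⟩
  · intro g
    obtain ⟨a, ha⟩ := he (Sum.inr (Sum.inl (n, g)))
    have h1 := hf a
    rw [ha] at h1
    rcases h1 with ⟨c, hc⟩ | h1
    · exact Or.inl ⟨_, hmem n a, c, hc⟩
    · exact Or.inr ⟨_, hmem n a, h1⟩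
  · intro n m hnm g heq
    obtain ⟨a, ha⟩ := he (Sum.inr (Sum.inr ((n, m), g)))
    have h1 := hf a
    rw [ha] at h1
    have h2 := h1 hnm
    have h3 : (f a).1 m ∈ (Y n).map g := by
      rw [heq]
      exact hmem m a
    rw [Ultrafilter.mem_map] at h3
    obtain ⟨x, hx1, hx2⟩ := (Y n).nonempty_of_mem (Filter.inter_mem (hmem n a) h3)
    exact h2 x hx1 hx2

/-- The statement of Q1: every q-point Tukey below a finite Fubini iterate of p-points is
selective. -/
def Q1 : Prop :=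
  ∀ U V : Ultrafilter ℕ, ∀ k : ℕ, Iterate k U → QPoint V → TukeyLE V U → Selective V

/-- (1) In ZFC: the Fubini limit along a nonprincipal ultrafilter of selective ultrafilters none
of which is an image of another one is a q-point and it is not selective. (2) Under the continuum
hypothesis some Fubini limit of p-points along a p-point is a q-point and not selective, so `Q1`
fails. (3) The continuum hypothesis is forced, with `ω₁` preserved, by some forcing notion. -/
theorem result :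
    (∀ (W : Ultrafilter ℕ) (Y : ℕ → Ultrafilter ℕ), (∀ k : ℕ, ({k} : Set ℕ) ∉ W) →
      (∀ n, Selective (Y n)) → (∀ n m, n ≠ m → ∀ h : ℕ → ℕ, (Y n).map h ≠ Y m) →
      QPoint (lim W Y) ∧ ¬ Selective (lim W Y)) ∧
    (CH → ∃ (W : Ultrafilter ℕ) (Y : ℕ → Ultrafilter ℕ), PPoint W ∧ (∀ n, PPoint (Y n)) ∧
      QPoint (lim W Y) ∧ ¬ Selective (lim W Y)) ∧
    (CH → ¬ Q1) ∧
    ∃ (P : Type) (_ : Preorder P), Nonempty P ∧
      ∀ p : P, p ∈ OmegaOnePreserved P ∧ p ∈ CHHolds P := by
  have h1 : ∀ (W : Ultrafilter ℕ) (Y : ℕ → Ultrafilter ℕ), (∀ k : ℕ, ({k} : Set ℕ) ∉ W) →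
      (∀ n, Selective (Y n)) → (∀ n m, n ≠ m → ∀ h : ℕ → ℕ, (Y n).map h ≠ Y m) →
      QPoint (lim W Y) ∧ ¬ Selective (lim W Y) := fun W Y hW hY hne =>
    ⟨qpoint_lim hY hne, not_selective_lim hW fun n => (hY n).1⟩
  have h2 : CH → ∃ (W : Ultrafilter ℕ) (Y : ℕ → Ultrafilter ℕ), PPoint W ∧
      (∀ n, PPoint (Y n)) ∧ QPoint (lim W Y) ∧ ¬ Selective (lim W Y) := by
    intro h
    obtain ⟨Y, hY, hne⟩ := exists_selective h
    exact ⟨Y 0, Y, .of_selective (hY 0), fun n => .of_selective (hY n), h1 _ _ (hY 0).1 hY hne⟩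
  refine ⟨h1, h2, ?_, ?_⟩
  · intro h hQ
    obtain ⟨W, Y, hW, hY, hq, hs⟩ := h2 h
    exact hs (hQ (lim W Y) (lim W Y) 1 (.lim 0 W Y hW fun n => .base _ (hY n)) hq
      (tukeyLE_refl _))
  · obtain ⟨P, hP, h1, h2⟩ := Pool.Agent.Helper292.ForceCH.exists_forcing
    exact ⟨P, hP, h1, fun p => ⟨(h2 p).1, (h2 p).2.2⟩⟩

end Pool.Agent.Results.MP_21276c_lc.NotProvable
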